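import Pool.Agent.Q9.KE.ClassTwo

/-!
# Kervaire extensions with coefficients in a nilpotent subgroup of class at most two

Outline of the proof. Let `X` be a nonempty set, `Wr X G` the unrestricted wreath product of `G` with
the symmetric group of `X`, and embed `G` diagonally. If the system has a solution in `Wr X G`, then
`G → H` is followed by a homomorphism `H → Wr X G` which is the diagonal embedding on `G`, and
comparing the sections shows the claim. So it suffices to solve the system in `Wr X C` for the
subgroup `C` of class two which contains the coefficients.

After the introduction of new unknowns the system has the form `w_j(t) = c_j` with words `w_j` in the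
unknowns and `c_j` in `C`. Let `Λ = ℤ ^ n`, `K` the sublattice generated by the exponent sums `κ_j` of
the words, `X = Λ / K`, `D` the matrix of the Fox derivatives of the words over the group ring of
`Λ`. The determinant of `D` becomes the norm element of `X` up to sign, since `X` has order
`|det (κ_j)|`. Applied to the coordinate functions of `K` (extended by `0` to `Λ`), the determinant
and the adjugate of `D` give integral functions `φ_j` and `r` on `Λ`: `φ_j` grows by `1` along `κ_j`,
is invariant under the other `κ_l`, and the system for `r` with the right side `- φ_j` is solved by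
Cramer's rule. Then one introduces the right sides one after the other: if `F` is the solution for
the previous right sides, the solution for the additional right side `a = c_j` is
`a ^ φ_j(x + e_i) * F_i(x) * a ^ (- φ_j(x)) * ∏ [a, c_l] ^ r_l(x)`.
-/

set_option autoImplicit false

open scoped commutatorElement

namespace Pool.Agent.Results.MP_9999b4_al.ClassTwoCoefficients

/-- Let `w` be a nonsingular system of `n` words over a group `G` in `n` unknowns, with quotient `H`,
and suppose that

* `G` is nilpotent of class at most two, or
* the coefficients of all words lie in a subgroup `C` of `G` which is nilpotent of class at most two.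

If a product of conjugates in `H` of the images of `g 0, ..., g (r - 1)` is `1`, then a product of
conjugates in `G` of these elements is `1`. -/
theorem result (G : Type) [Group G] (n : ℕ)
    (w : Fin n → Monoid.Coprod G (FreeGroup (Fin n)))
    (hdet : (Matrix.of (fun i j : Fin n => Multiplicative.toAdd
        (Monoid.Coprod.lift (1 : G →* Multiplicative ℤ)
          (FreeGroup.lift (fun k : Fin n =>
            if k = i then Multiplicative.ofAdd (1 : ℤ) else 1)) (w j)))).det ≠ 0)
    (hw : (∀ a b c : G, ⁅a, b⁆ * c = c * ⁅a, b⁆) ∨
      (∃ C : Subgroup G, (∀ a ∈ C, ∀ b ∈ C, ∀ c ∈ C, ⁅a, b⁆ * c = c * ⁅a, b⁆) ∧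
        ∀ i, w i ∈ (Monoid.Coprod.map C.subtype (MonoidHom.id (FreeGroup (Fin n)))).range))
    (r : ℕ) (g : Fin r → G)
    (h : ∃ h : Fin r → (Monoid.Coprod G (FreeGroup (Fin n)) ⧸
            Subgroup.normalClosure (Set.range w)),
      (List.ofFn (fun i => h i *
        QuotientGroup.mk' (Subgroup.normalClosure (Set.range w))
          (Monoid.Coprod.inl (g i)) * (h i)⁻¹)).prod = 1) :
    ∃ x : Fin r → G, (List.ofFn (fun i => x i * g i * (x i)⁻¹)).prod = 1 := by
  refine Q9.KE.main_of_solution w ?_ r g h
  rcases hw with hG | ⟨C, hC, hw⟩
  · exact Q9.KE.solve_two' hG w (Q9.KE.det_of w hdet)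
  · exact Q9.KE.solve_of_class_two C hC w (Q9.KE.det_of w hdet) hw

end Pool.Agent.Results.MP_9999b4_al.ClassTwoCoefficients
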